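import Pool.Agent.Q281.AD.Fwd

set_option autoImplicit false

/-!
# The parity of `p(n)` against automatic sequences (MP_ebc808_nt)

No 2-automatic sequence `b` (by Christol's theorem: no sequence whose generating function is algebraic over
`F_2(X)`) approximates the parity of `p(n)`, or of a linear pattern of `p(n)`, in a class modulo a power of two: the
number of disagreements up to `x` is at least `√x / (log x) ^ (1 - 1 / 200)` for large `x`.

Method. The generating function `B` of `b`, restricted to the class, satisfies `∑ c_i B ^ (4 ^ i) = 0` with polynomials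
`c_i`, `c_0 ≠ 0`. So if `D` is the generating function of the disagreements and `G` that of the pattern in the class,
`∑ c_i D ^ (4 ^ i) = ∑ c_i G ^ (4 ^ i)`, and it is enough to count the nonzero coefficients of the right side. Multiplied
by `f_1 ^ (4 ^ (k + 1))` (lacunary), it becomes a sum of powers of the discriminant modulo 2 at the arguments
`(N - h) / 4 ^ i`, where `h` runs through a finite set of integers. By the theory of Nicolas and Serre the term with
`h = 0` is odd when `N` is a product of `2 ^ k - 1` primes `≡ 5 (mod 8)`, and a term with `h ≠ 0` is even when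
`2 ^ k` primes `≡ 5 (mod 8)` divide `N - h` exactly once; a sieve shows that this holds for most `N`, with `2 ^ k` of the
order of `log log x`.
-/

open Finset

namespace Pool.Agent.Results.MP_ebc808_nt.AutomaticSequences

/-- the number of partitions of the integer `n`; it is `0` for negative `n` -/
def part (n : ℤ) : ℕ := if 0 ≤ n then Fintype.card (Nat.Partition n.toNat) else 0

/-- the 2-kernel of a sequence: the sequences `n ↦ b (2 ^ k n + r)`, `r < 2 ^ k` -/
def kernel (b : ℕ → ZMod 2) : Set (ℕ → ZMod 2) :=
  {s | ∃ k r : ℕ, r < 2 ^ k ∧ s = fun n => b (2 ^ k * n + r)}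

/-- the numbers `n ≤ x`, `n ≡ ρ (mod q)`, for which `∑ p(n + j)` over the `j ∈ J` is not congruent to `b n` -/
def errors (b : ℕ → ZMod 2) (J : Finset ℤ) (q ρ x : ℕ) : Finset ℕ :=
  (range (x + 1)).filter fun n => n % q = ρ % q ∧ ((∑ j ∈ J, part (n + j) : ℕ) : ZMod 2) ≠ b n

/-- **The parity of the partition function against automatic sequences.** Let `b` be a sequence with values in `F_2` and
a finite 2-kernel (a 2-automatic sequence), `J` a nonempty finite set of integers, and `ρ` a class modulo `2 ^ β`. For
all large `x` there are at least `√x / (log x) ^ (1 - 1 / 200)` numbers `n ≤ x` in the class for which the sum of the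
`p(n + j)`, `j ∈ J`, is not congruent to `b n` modulo 2. -/
theorem result (b : ℕ → ZMod 2) (hb : (kernel b).Finite) (J : Finset ℤ) (hJ : J.Nonempty) (β ρ : ℕ) :
    ∃ x₀ : ℕ, ∀ x : ℕ, x₀ ≤ x →
      Real.sqrt x / Real.log x ^ (1 - 1 / 200 : ℝ) ≤ ((errors b J (2 ^ β) ρ x).card : ℝ) := by
  obtain ⟨x₀, h⟩ := Pool.Agent.Q281.AD.main b hb J hJ β ρ
  refine ⟨x₀, fun x hx => ?_⟩
  have h1 := h x hx
  rw [show (1 - 1 / 200 : ℝ) = 199 / 200 by norm_num]
  exact h1

end Pool.Agent.Results.MP_ebc808_nt.AutomaticSequences
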