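import Pool.Agent.Q167.NS.I

set_option autoImplicit false

/-!
# The parity of partitions: errors in the coefficients of Euler's series

`∑ p(n) q^n` is the reciprocal of Euler's series `∏ (1 - q^m)`.  Modulo 2 the coefficients of Euler's
series (or of any other series with constant coefficient one) are changed at independent random places,
the place `k` with probability at least `c k^(-θ)`, `θ < 1`.  Then almost surely all blocks of
coefficients of the reciprocal have the frequencies of random bits, along all arithmetic progressions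
and along all sparse sequences `n_j ≤ K (j + 1)^κ` with `θ κ < 1`.
-/

namespace Pool.Agent.Results.MP_ebc808_nt.RandomErrors

open Finset MeasureTheory ProbabilityTheory Filter Topology

/-- the coefficients modulo 2 of the reciprocal of `G + ∑ q^k`, the sum over all `k ≥ 1` with
`ω k = true` -/
noncomputable def coeffs (G : PowerSeries (ZMod 2)) (ω : ℕ → Bool) (n : ℕ) : ZMod 2 :=
  PowerSeries.coeff n (G + PowerSeries.mk fun k => if ω k = true ∧ 1 ≤ k then 1 else 0)⁻¹

/-- all blocks of `r` have the frequencies of random bits at the places `n 0, n 1, ...` -/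
def RandomLike (r : ℕ → ZMod 2) (n : ℕ → ℕ) : Prop :=
  ∀ (L : ℕ) (e : ℕ → ZMod 2), Tendsto (fun J : ℕ =>
    (((range J).filter fun j => ∀ i < L, r (n j + i) = e i).card : ℝ) / J) atTop (𝓝 (1 / 2 ^ L))

/-- `∑ p(n) q^n` modulo 2 -/
noncomputable def partitions : PowerSeries (ZMod 2) :=
  PowerSeries.mk fun n => (Fintype.card (Nat.Partition n) : ZMod 2)

theorem randomLike_of (G : PowerSeries (ZMod 2)) (ω : ℕ → Bool) (n : ℕ → ℕ)
    (h : ∀ S : Finset ℕ, S.Nonempty → Tendsto (fun J : ℕ =>
      (∑ j ∈ range J, Pool.Agent.Q167.NS.sn G S (n j) ω) / (J : ℝ)) atTop (𝓝 0)) :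
    RandomLike (coeffs G ω) n :=
  fun L e => Pool.Agent.Q167.NS.freq (coeffs G ω) n h L e

theorem result :
    -- errors of probability at least `c k ^ (-θ)`, sequences with `n_j ≤ K (j + 1) ^ κ`, `θ κ < 1`
    (∀ {Ω : Type} [MeasurableSpace Ω] (P : Measure Ω) [IsProbabilityMeasure P]
      (ξ : ℕ → Ω → Bool) (p : ℕ → ℝ), (∀ k, Measurable (ξ k)) → iIndepFun ξ P →
      (∀ k, P.real {ω | ξ k ω = true} = p k) →
      ∀ (G : PowerSeries (ZMod 2)), PowerSeries.constantCoeff G = 1 →
      ∀ c θ : ℝ, 0 < c → 0 < θ → θ < 1 →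
      (∀ k : ℕ, 1 ≤ k → c * (k : ℝ) ^ (-θ) ≤ p k ∧ c * (k : ℝ) ^ (-θ) ≤ 1 - p k) →
      (∀ (n : ℕ → ℕ) (K κ : ℝ), StrictMono n → 0 ≤ κ → θ * κ < 1 →
        (∀ j, (n j : ℝ) ≤ K * ((j : ℝ) + 1) ^ κ) →
        ∀ᵐ ω ∂P, RandomLike (coeffs G fun k => ξ k ω) n) ∧
      (∀ᵐ ω ∂P, ∀ q a : ℕ, 1 ≤ q → RandomLike (coeffs G fun k => ξ k ω) fun j => q * j + a)) ∧
    -- few changes suffice
    (∀ G : PowerSeries (ZMod 2), PowerSeries.constantCoeff G = 1 → ∀ η : ℝ, 0 < η →
      ∃ ω : ℕ → Bool,
        (∀ᶠ N : ℕ in atTop, (((Icc 1 N).filter fun k => ω k = true).card : ℝ) ≤ (N : ℝ) ^ η) ∧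
        ∀ q a : ℕ, 1 ≤ q → RandomLike (coeffs G ω) fun j => q * j + a) ∧
    -- partitions: no errors, `G` the reciprocal of `∑ p(n) q^n`
    (PowerSeries.constantCoeff partitions⁻¹ = 1 ∧
      ∀ n, coeffs partitions⁻¹ (fun _ => false) n = (Fintype.card (Nat.Partition n) : ZMod 2)) := by
  refine ⟨?_, ?_, ?_, ?_⟩
  · intro Ω _ P _ ξ p hm hi hp G hG c θ hc hθ hθ1 hr
    have hB : Pool.Agent.Q167.NS.Bits P ξ p := ⟨hm, hi, hp⟩
    constructor
    · intro n K κ hn hκ0 hκ hK
      filter_upwards [hB.ae_forms hG hc hθ hθ1 hr n ⟨hn, K, κ, hκ0, hκ, hK⟩] with ω hω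
      exact randomLike_of G _ n hω
    · rw [ae_all_iff]
      intro q
      rw [ae_all_iff]
      intro a
      by_cases hq : 1 ≤ q
      · filter_upwards [hB.ae_forms hG hc hθ hθ1 hr _ (Pool.Agent.Q167.NS.slow_ap hθ1 q a hq)]
          with ω hω
        exact fun _ => randomLike_of G _ _ hω
      · exact Eventually.of_forall fun ω h => absurd h hq
  · intro G hG η hη
    obtain ⟨ω, h1, h2⟩ := Pool.Agent.Q167.NS.few_changes G hG η hη
    exact ⟨ω, h1, fun q a hq => randomLike_of G ω _ (h2 q a hq)⟩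
  · have h0 : PowerSeries.constantCoeff partitions = 1 := by
      rw [← PowerSeries.coeff_zero_eq_constantCoeff_apply, partitions, PowerSeries.coeff_mk]
      simp
    rw [PowerSeries.constantCoeff_inv, h0, inv_one]
  · intro n
    have h0 : PowerSeries.constantCoeff partitions = 1 := by
      rw [← PowerSeries.coeff_zero_eq_constantCoeff_apply, partitions, PowerSeries.coeff_mk]
      simp
    have h1 : PowerSeries.constantCoeff partitions⁻¹ ≠ 0 := by
      rw [PowerSeries.constantCoeff_inv, h0, inv_one]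
      exact one_ne_zero
    have h2 : (PowerSeries.mk fun k : ℕ => if (false = true) ∧ 1 ≤ k then (1 : ZMod 2) else 0) = 0 := by
      ext k
      rw [PowerSeries.coeff_mk, map_zero, if_neg (fun h => absurd h.1 (by decide))]
    have h3 : (partitions⁻¹)⁻¹ = partitions := by
      have h4 := PowerSeries.mul_inv_cancel partitions⁻¹ h1
      have h5 := PowerSeries.mul_inv_cancel partitions (by rw [h0]; exact one_ne_zero)
      calc (partitions⁻¹)⁻¹ = (partitions * partitions⁻¹) * (partitions⁻¹)⁻¹ := by rw [h5, one_mul]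
        _ = partitions * (partitions⁻¹ * (partitions⁻¹)⁻¹) := by ring
        _ = partitions := by rw [h4, mul_one]
    unfold coeffs
    rw [h2, add_zero, h3, partitions, PowerSeries.coeff_mk]

end Pool.Agent.Results.MP_ebc808_nt.RandomErrors
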