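import Pool.Agent.Q163.PM.Av

set_option autoImplicit false

/-!
# Partition numbers with randomly forbidden parts are equidistributed modulo every integer

Let `thin` be the set of the numbers `r ^ 2 * 2 ^ (r + i) + c * 4 ^ i` with `1 ≤ r`, `i ≤ r`, `c ≤ 200 r ^ 2`. It has
at most `402 (log x / log 2) ^ 4` elements up to `x`. Let `T` be any set of numbers that contains `thin` and let
`D` be a random subset of `T` (every element is in `D` with probability `1 / 2`, independently). Almost surely
the numbers `p_D(n)` of partitions of `n` with no part in `D` are equidistributed modulo every `M`, together with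
all patterns of consecutive values, along any given countable family of increasing sequences (arithmetic progressions,
polynomial sequences, the primes), with an error `O(N ^ (1/2) log(N) ^ 2)`.

Method. For `t ∈ T` the bit of `t` changes `p_D(n)`, `t ≤ n < 2 t`, by `± p_D(n - t)`. So the mean of
`exp (2 π i ℓ / M)`, `ℓ` a linear form in `p_D(0), ..., p_D(m)` with last coefficient nonzero, is at most the mean
of the product of `3/4 + cos(2 π ℓ_t / M) / 4`, where `ℓ_t` is the form shifted by `t`, over the `t ∈ T` in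
`(m/2, m]`. The product is expanded; all other forms that occur have a last index `m - t`. If `m - t` is again such
an index for many `t`, the bound follows by induction, and `thin` is built such that every `m` has a chain of this
kind of length `O(log m)` with `≫ log(m) ^ 2` choices at every step; it ends at fresh bits. The pair correlations
are `O(m ^ (-A))`, and the inequality of Rademacher and Menshov gives the almost sure bound.
-/

namespace Pool.Agent.Results.MP_ebc808_nt.RandomlyForbiddenParts

open MeasureTheory Pool.Agent.Q163.RX Pool.Agent.Q163.PM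

/-- the number of partitions of `n` with no part in `D` -/
noncomputable def partitionsAvoiding (D : Set ℕ) (n : ℕ) : ℕ :=
  {p : n.Partition | ∀ i ∈ p.parts, i ∉ D}.ncard

/-- the thin set -/
def thin : Set ℕ :=
  {t | ∃ r i c : ℕ, 1 ≤ r ∧ i ≤ r ∧ c ≤ 200 * r ^ 2 ∧ t = r ^ 2 * 2 ^ (r + i) + c * 4 ^ i}

/-- the random subset of `T` given by the coins `ω` -/
def rset (T : Set ℕ) (ω : ℕ → Bool) : Set ℕ := {t ∈ T | ω t = true}

theorem result :
    (∀ x : ℕ, (thin ∩ Set.Icc 1 x).ncard ≤ 402 * Nat.log 2 x ^ 4) ∧
    ∀ T : Set ℕ, thin ⊆ T → ∀ a : ℕ → ℕ → ℕ, (∀ l, StrictMono (a l)) →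
      ∀ᵐ ω ∂cm, ∀ l M : ℕ, 1 ≤ M → ∀ (H : ℕ) (e : Fin (H + 1) → ZMod M), ∃ C : ℝ, ∀ N : ℕ,
        |(((Finset.range N).filter fun j => ∀ i : Fin (H + 1),
            ((partitionsAvoiding (rset T ω) (a l j + (i : ℕ)) : ℕ) : ZMod M) = e i).card : ℝ) -
          N / (M : ℝ) ^ (H + 1)| ≤ C * (Real.sqrt N * Real.log (N + 1) ^ 2) := by
  classical
  refine ⟨count_T0, fun T hT a ha => ?_⟩
  have hrich : Rich T := rich_T0.mono hT
  rw [ae_all_iff]
  intro l
  rw [ae_all_iff]
  intro M
  rcases Nat.eq_zero_or_pos M with h0 | hM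
  · exact Filter.Eventually.of_forall fun ω h => by omega
  have : NeZero M := ⟨by omega⟩
  have h1 : ∀ᵐ ω ∂cm, ∀ H : ℕ, ∀ e : Unit → Fin (H + 1) → ZMod M, ∃ C : ℝ, ∀ N : ℕ,
      |(((Finset.range N).filter fun j => ∀ τ : Unit, ∀ i : Fin (H + 1),
        cv (fun ω n => ((av (sub T ω) n : ℕ) : ZMod M)) ((fun _ n => if n = 0 then 1 else 0 : Unit → ℕ → ZMod M) τ)
          (a l j + (i : ℕ)) ω = e τ i).card : ℝ) -
        N / (M : ℝ) ^ (Fintype.card Unit * (H + 1))| ≤ C * er N := by
    rw [ae_all_iff]
    intro H
    refine joint (fam_av M T) hrich _ H (fun c hc => ?_) (a l) (ha l)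
    obtain ⟨τ, hτ⟩ := Function.ne_iff.1 hc
    obtain ⟨i, hi⟩ := Function.ne_iff.1 hτ
    refine ⟨H - (i : ℕ), ?_⟩
    unfold wc
    rw [Fintype.sum_unique, Finset.sum_eq_single i]
    · simpa using hi
    · intro j _ hji
      have hne : (j : ℕ) ≠ i := fun h => hji (Fin.ext h)
      have h1 := i.isLt
      have h2 := j.isLt
      by_cases h3 : H - (j : ℕ) ≤ H - (i : ℕ)
      · have h4 : H - (i : ℕ) - (H - (j : ℕ)) ≠ 0 := by omega
        rw [if_pos h3]
        simp only [if_neg h4, mul_zero]
      · rw [if_neg h3]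
    · intro h
      exact absurd (Finset.mem_univ i) h
  filter_upwards [h1] with ω hω _ H e
  obtain ⟨C, hC⟩ := hω H fun _ => e
  refine ⟨C, fun N => ?_⟩
  refine le_trans (le_of_eq ?_) (hC N)
  rw [Fintype.card_unit, one_mul]
  congr 4
  refine Finset.filter_congr fun j _ => ?_
  have h2 : ∀ n, cv (fun ω n => ((av (sub T ω) n : ℕ) : ZMod M)) (fun n => if n = 0 then 1 else 0) n ω =
      ((partitionsAvoiding (rset T ω) n : ℕ) : ZMod M) := by
    intro n
    unfold cv
    rw [Finset.sum_range_succ, Finset.sum_eq_zero, zero_add, Nat.sub_self]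
    · simp only [if_true, one_mul]
      rfl
    · intro x hx
      have h3 := Finset.mem_range.1 hx
      have h4 : n - x ≠ 0 := by omega
      simp only [if_neg h4, zero_mul]
  constructor
  · intro h _ i
    rw [h2]
    exact h i
  · intro h i
    rw [← h2]
    exact h () i

end Pool.Agent.Results.MP_ebc808_nt.RandomlyForbiddenParts
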