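import Pool.Agent.Q132.EP.Fwd
import Pool.Agent.Q149.EP.Few
import Pool.Agent.Q149.EP.Sia
import Pool.Agent.Q149.EP.Sie
import Pool.Agent.Q129.EP.MAS
import Pool.Agent.Q129.EP.APL
import Pool.Agent.Q129.EP.JOD

set_option autoImplicit false

/-!
# Linear patterns of `p(n)` modulo 2, uniformly in the pattern
-/

open Finset

namespace Pool.Agent.Results.MP_ebc808_nt.UniformPatterns

/-- the number of partitions of the integer `n`; it is `0` for negative `n` -/
def part (n : ℤ) : ℕ := if 0 ≤ n then Fintype.card (Nat.Partition n.toNat) else 0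

/-- the numbers `n ≤ x`, `n ≡ ρ (mod q)`, for which `∑ p(n + j)` over the `j ∈ J` is even -/
def evens (J : Finset ℤ) (q ρ x : ℕ) : Finset ℕ :=
  (range (x + 1)).filter fun n => n % q = ρ % q ∧ Even (∑ j ∈ J, part (n + j))

/-- the numbers `n ≤ x`, `n ≡ ρ (mod q)`, for which `∑ p(n + j)` over the `j ∈ J` is odd -/
def odds (J : Finset ℤ) (q ρ x : ℕ) : Finset ℕ :=
  (range (x + 1)).filter fun n => n % q = ρ % q ∧ Odd (∑ j ∈ J, part (n + j))

/-- **The linear patterns of the parity of the partition function, uniformly in the pattern.** There is one `x₀`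
such that for all `x ≥ x₀`, all sets `J` of at most `(log x) ^ (1 / 20)` integers, all at most `√x / log x` (negative
integers of any size are allowed), all residue classes modulo a power `2 ^ b ≤ (log log x) / 200`, the sum of the
`p(n + j)`, `j ∈ J`, is even for at least `√x log log x / (4000 · 2 ^ b)` of the `n ≤ x` in the class and, if `J`
contains an integer `≥ 0`, odd for at least `√x / (log x) ^ (1 - 1 / 200)` of them. -/
theorem result : ∃ x₀ : ℕ, ∀ x : ℕ, x₀ ≤ x → ∀ J : Finset ℤ,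
    (J.card : ℝ) ≤ Real.log x ^ (1 / 20 : ℝ) → (∀ j ∈ J, (j : ℝ) ≤ Real.sqrt x / Real.log x) →
    ∀ b ρ : ℕ, (2 : ℝ) ^ b ≤ Real.log (Real.log x) / 200 →
      Real.sqrt x * Real.log (Real.log x) / (4000 * 2 ^ b) ≤ ((evens J (2 ^ b) ρ x).card : ℝ) ∧
      ((∃ j ∈ J, 0 ≤ j) →
        Real.sqrt x / Real.log x ^ (1 - 1 / 200 : ℝ) ≤ ((odds J (2 ^ b) ρ x).card : ℝ)) := by
  obtain ⟨x₀, h⟩ := Q132.EP.main Q149.EP.few Q129.EP.mas Q129.EP.jod (Q149.EP.sie Q149.EP.sia) Q129.EP.apl
  refine ⟨x₀, fun x hx J hJ hJ2 b ρ hb => ?_⟩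
  have h1 := h x hx J b ρ hJ hJ2 hb
  refine ⟨h1.1, fun hj => ?_⟩
  rw [show (1 - 1 / 200 : ℝ) = 199 / 200 by norm_num]
  exact h1.2 hj

end Pool.Agent.Results.MP_ebc808_nt.UniformPatterns
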